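import Pool.Agent.R564.OnOff.Defs

set_option autoImplicit false

open Set Classical

namespace Pool.Agent.R564.OnOff

/-- the number of time periods -/
abbrev N (u : ℕ) : ℕ := 7 * u + 2

lemma sum_blocks7 (F : ℕ → ℕ → ℝ) (u : ℕ) :
    ∑ a ∈ Finset.range (7 * u), F (a / 7) (a % 7) =
      ∑ i ∈ Finset.range u, ∑ j ∈ Finset.range 7, F i j := by
  induction u with
  | zero => simp
  | succ u ih =>
    have e : 7 * (u + 1) = 7 * u + 1 + 1 + 1 + 1 + 1 + 1 + 1 := by ring
    rw [e]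
    simp only [Finset.sum_range_succ (fun a => F (a / 7) (a % 7)), ih]
    rw [Finset.sum_range_succ (fun i => ∑ j ∈ Finset.range 7, F i j)]
    have h0 : (7 * u) / 7 = u ∧ (7 * u) % 7 = 0 := by omega
    have h1 : (7 * u + 1) / 7 = u ∧ (7 * u + 1) % 7 = 1 := by omega
    have h2 : (7 * u + 1 + 1) / 7 = u ∧ (7 * u + 1 + 1) % 7 = 2 := by omega
    have h3 : (7 * u + 1 + 1 + 1) / 7 = u ∧ (7 * u + 1 + 1 + 1) % 7 = 3 := by omega
    have h4 : (7 * u + 1 + 1 + 1 + 1) / 7 = u ∧ (7 * u + 1 + 1 + 1 + 1) % 7 = 4 := by omega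
    have h5 : (7 * u + 1 + 1 + 1 + 1 + 1) / 7 = u ∧ (7 * u + 1 + 1 + 1 + 1 + 1) % 7 = 5 := by
      omega
    have h6 : (7 * u + 1 + 1 + 1 + 1 + 1 + 1) / 7 = u ∧
      (7 * u + 1 + 1 + 1 + 1 + 1 + 1) % 7 = 6 := by omega
    rw [h0.1, h0.2, h1.1, h1.2, h2.1, h2.2, h3.1, h3.2, h4.1, h4.2, h5.1, h5.2, h6.1, h6.2]
    simp only [Finset.sum_range_succ, Finset.sum_range_zero]
    ring

lemma sum_blocks (F : ℕ → ℕ → ℝ) (u : ℕ) :
    ∑ v : ZMod (N u), F (v.val / 7) (v.val % 7) =
      ∑ i ∈ Finset.range u, ∑ j ∈ Finset.range 7, F i j + F u 0 + F u 1 := by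
  rw [sum_val (fun a => F (a / 7) (a % 7))]
  have e : N u = 7 * u + 1 + 1 := rfl
  rw [e, Finset.sum_range_succ, Finset.sum_range_succ, sum_blocks7]
  have h0 : (7 * u) / 7 = u ∧ (7 * u) % 7 = 0 := by omega
  have h1 : (7 * u + 1) / 7 = u ∧ (7 * u + 1) % 7 = 1 := by omega
  rw [h0.1, h0.2, h1.1, h1.2]

/-- the 0/1 vector of a set of positions, described by block number and position in the block -/
noncomputable def vec (u : ℕ) (p : ℕ → ℕ → Prop) : ZMod (N u) → ℝ :=
  fun v => if p (v.val / 7) (v.val % 7) then 1 else 0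

/-- the pattern of a block: `10 11110` or `11110 10` -/
def tb : Bool → ℕ → Prop
  | false, j => j = 0 ∨ j = 2 ∨ j = 3 ∨ j = 4 ∨ j = 5
  | true, j => j = 0 ∨ j = 1 ∨ j = 2 ∨ j = 3 ∨ j = 5

/-- the support of the facet inequality -/
def tp (u : ℕ) (w : ℕ → Bool) (i j : ℕ) : Prop := (i < u ∧ tb (w i) j) ∨ (i = u ∧ j = 0)

/-- the left hand side of the facet inequality -/
noncomputable def lw (u : ℕ) (w : ℕ → Bool) : (ZMod (N u) → ℝ) →ₗ[ℝ] ℝ :=
  ∑ v : ZMod (N u), if tp u w (v.val / 7) (v.val % 7) then LinearMap.proj v else 0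

lemma lw_apply (u : ℕ) (w : ℕ → Bool) (y : ZMod (N u) → ℝ) :
    lw u w y = ∑ v : ZMod (N u), if tp u w (v.val / 7) (v.val % 7) then y v else 0 := by
  unfold lw
  rw [LinearMap.sum_apply]
  refine Finset.sum_congr rfl fun v _ => ?_
  split_ifs <;> simp

/-- number of positions of `Q` in the pattern `tb b` -/
noncomputable def cnt (b : Bool) (Q : ℕ → Prop) : ℝ :=
  ∑ a ∈ Finset.range 7, if tb b a ∧ Q a then 1 else 0

def SS (u j : ℕ) (Q : ℕ → Prop) (i a : ℕ) : Prop :=
  (i < j ∧ (a = 0 ∨ a = 3)) ∨ (i = j ∧ Q a) ∨ (j < i ∧ i < u ∧ (a = 2 ∨ a = 5))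

def RR (u j : ℕ) (Q : ℕ → Prop) (i a : ℕ) : Prop :=
  (i < j ∧ (a = 2 ∨ a = 5)) ∨ (i = j ∧ Q a) ∨ (j < i ∧ i < u ∧ (a = 0 ∨ a = 3)) ∨
    (i = u ∧ a = 0)

def SX (u : ℕ) (i a : ℕ) : Prop := (i < u ∧ (a = 2 ∨ a = 5)) ∨ (i = u ∧ a = 1)

lemma lw_vec (u : ℕ) (w : ℕ → Bool) (p : ℕ → ℕ → Prop) :
    lw u w (vec u p) = ∑ i ∈ Finset.range u, cnt (w i) (p i) + (if p u 0 then 1 else 0) := by
  rw [lw_apply]
  have := sum_blocks (fun i j => if tp u w i j then (if p i j then (1 : ℝ) else 0) else 0) u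
  simp only [vec]
  rw [this]
  have h1 : tp u w u 0 := Or.inr ⟨rfl, rfl⟩
  have h2 : ¬ tp u w u 1 := by
    rintro (h | h)
    · exact lt_irrefl _ h.1
    · exact one_ne_zero h.2
  rw [if_pos h1, if_neg h2, add_zero]
  congr 1
  refine Finset.sum_congr rfl fun i hi => ?_
  have hi' := Finset.mem_range.1 hi
  unfold cnt
  refine Finset.sum_congr rfl fun a _ => ?_
  have : tp u w i a ↔ tb (w i) a := by
    unfold tp
    constructor
    · rintro (h | h)
      · exact h.2
      · omega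
    · exact fun h => Or.inl ⟨hi', h⟩
  by_cases h : tb (w i) a <;> by_cases h' : p i a <;> simp [this, h, h']

lemma cnt03 (b : Bool) (Q : ℕ → Prop) (hQ : ∀ a, Q a ↔ (a = 0 ∨ a = 3)) : cnt b Q = 2 := by
  cases b <;>
    (simp only [cnt, Finset.sum_range_succ, Finset.sum_range_zero]; simp [hQ, tb]; norm_num)

lemma cnt25 (b : Bool) (Q : ℕ → Prop) (hQ : ∀ a, Q a ↔ (a = 2 ∨ a = 5)) : cnt b Q = 2 := by
  cases b <;>
    (simp only [cnt, Finset.sum_range_succ, Finset.sum_range_zero]; simp [hQ, tb]; norm_num)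

lemma sum_two_ite (u j : ℕ) (hj : j < u) (x : ℝ) (f : ℕ → ℝ) (hf : ∀ i < u, i ≠ j → f i = 2)
    (hfj : f j = x) : ∑ i ∈ Finset.range u, f i = 2 * (u : ℝ) - 2 + x := by
  have h1 : ∀ i ∈ Finset.range u, f i = 2 + (if i = j then x - 2 else 0) := by
    intro i hi
    by_cases h : i = j
    · rw [h, if_pos rfl, hfj]
      ring
    · rw [if_neg h, hf i (Finset.mem_range.1 hi) h]
      ring
  rw [Finset.sum_congr rfl h1, Finset.sum_add_distrib, Finset.sum_const, Finset.sum_ite_eq',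
    if_pos (Finset.mem_range.2 hj), Finset.card_range, nsmul_eq_mul]
  ring

lemma lw_SS (u j : ℕ) (hj : j < u) (w : ℕ → Bool) (Q : ℕ → Prop) :
    lw u w (vec u (SS u j Q)) = 2 * (u : ℝ) - 2 + cnt (w j) Q := by
  rw [lw_vec]
  have h0 : ¬ SS u j Q u 0 := by
    rintro (h | h | h) <;> omega
  rw [if_neg h0, add_zero]
  refine sum_two_ite u j hj _ _ ?_ ?_
  · intro i hi hij
    rcases Nat.lt_or_ge i j with h | h
    · refine cnt03 _ _ fun a => ?_
      unfold SS
      constructor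
      · rintro (h' | h' | h')
        · exact h'.2
        · omega
        · omega
      · exact fun h' => Or.inl ⟨h, h'⟩
    · refine cnt25 _ _ fun a => ?_
      unfold SS
      constructor
      · rintro (h' | h' | h')
        · omega
        · omega
        · exact h'.2.2
      · exact fun h' => Or.inr (Or.inr ⟨by omega, hi, h'⟩)
  · congr 1
    funext a
    unfold SS
    refine propext ⟨?_, fun h' => Or.inr (Or.inl ⟨rfl, h'⟩)⟩
    rintro (h' | h' | h')
    · omega
    · exact h'.2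
    · omega

lemma lw_RR (u j : ℕ) (hj : j < u) (w : ℕ → Bool) (Q : ℕ → Prop) :
    lw u w (vec u (RR u j Q)) = 2 * (u : ℝ) - 1 + cnt (w j) Q := by
  rw [lw_vec]
  have h0 : RR u j Q u 0 := Or.inr (Or.inr (Or.inr ⟨rfl, rfl⟩))
  rw [if_pos h0]
  have : ∑ i ∈ Finset.range u, cnt (w i) (RR u j Q i) = 2 * (u : ℝ) - 2 + cnt (w j) Q := by
    refine sum_two_ite u j hj _ _ ?_ ?_
    · intro i hi hij
      rcases Nat.lt_or_ge i j with h | h
      · refine cnt25 _ _ fun a => ?_
        unfold RR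
        constructor
        · rintro (h' | h' | h' | h')
          · exact h'.2
          · omega
          · omega
          · omega
        · exact fun h' => Or.inl ⟨h, h'⟩
      · refine cnt03 _ _ fun a => ?_
        unfold RR
        constructor
        · rintro (h' | h' | h' | h')
          · omega
          · omega
          · exact h'.2.2
          · omega
        · exact fun h' => Or.inr (Or.inr (Or.inl ⟨by omega, hi, h'⟩))
    · congr 1
      funext a
      unfold RR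
      refine propext ⟨?_, fun h' => Or.inr (Or.inl ⟨rfl, h'⟩)⟩
      rintro (h' | h' | h' | h')
      · omega
      · exact h'.2
      · omega
      · omega
  rw [this]
  ring

lemma lw_SX (u : ℕ) (w : ℕ → Bool) : lw u w (vec u (SX u)) = 2 * (u : ℝ) := by
  rw [lw_vec]
  have h0 : ¬ SX u u 0 := by
    rintro (h | h) <;> omega
  rw [if_neg h0, add_zero]
  rw [Finset.sum_congr rfl (g := fun _ => (2 : ℝ))]
  · simp [mul_comm]
  · intro i hi
    refine cnt25 _ _ fun a => ?_
    unfold SX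
    have := Finset.mem_range.1 hi
    constructor
    · rintro (h' | h')
      · exact h'.2
      · omega
    · exact fun h' => Or.inl ⟨this, h'⟩

/-! ### stability -/

def Stable (u : ℕ) (p : ℕ → ℕ → Prop) : Prop :=
  ∀ a < N u, ∀ b < N u, p (a / 7) (a % 7) → p (b / 7) (b % 7) →
    a + 1 ≠ b ∧ a + 2 ≠ b ∧ a + 1 ≠ b + N u ∧ a + 2 ≠ b + N u

lemma val_add_nat (u k : ℕ) (hk : k < N u) (t : ZMod (N u)) :
    (t + (k : ZMod (N u))).val = t.val + k ∨ (t + (k : ZMod (N u))).val + N u = t.val + k := by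
  rw [ZMod.val_add, ZMod.val_natCast, Nat.mod_eq_of_lt hk]
  have := ZMod.val_lt t
  rcases Nat.lt_or_ge (t.val + k) (N u) with h | h
  · exact Or.inl (Nat.mod_eq_of_lt h)
  · right
    rw [Nat.mod_eq_sub_mod h, Nat.mod_eq_of_lt (by omega)]
    omega

lemma vec_mem_Z (u : ℕ) (hu : 1 ≤ u) (p : ℕ → ℕ → Prop) (hs : Stable u p)
    (hne : ∃ i a, 7 * i + a < N u ∧ a < 7 ∧ p i a) :
    (vec u p, vec u p) ∈ Z (N u) (fun _ => 1) (fun _ => 1) (fun _ => 2) (fun _ => N u - 1) := by
  have h01 : ∀ t, vec u p t = 0 ∨ vec u p t = 1 := by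
    intro t
    unfold vec
    split_ifs
    · exact Or.inr rfl
    · exact Or.inl rfl
  have hv : ∀ t, vec u p t = 1 ↔ p (t.val / 7) (t.val % 7) := by
    intro t
    unfold vec
    split_ifs with h
    · simp [h]
    · simp [h]
  refine mem_Z_of_stable (by unfold N; omega) _ h01 ?_ ?_
  · obtain ⟨i, a, h1, h2, h3⟩ := hne
    refine ⟨((7 * i + a : ℕ) : ZMod (N u)), (hv _).2 ?_⟩
    rw [ZMod.val_natCast, Nat.mod_eq_of_lt h1]
    have e1 : (7 * i + a) / 7 = i := by omega
    have e2 : (7 * i + a) % 7 = a := by omega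
    rw [e1, e2]
    exact h3
  · intro t ht
    have htl := ZMod.val_lt t
    have h0 := (hv t).1 ht
    constructor
    · rcases h01 (t + 1) with h | h
      · exact h
      · exfalso
        have h1 := (hv _).1 h
        have e := val_add_nat u 1 (by unfold N; omega) t
        rw [Nat.cast_one] at e
        have := hs _ htl _ (ZMod.val_lt (t + 1)) h0 h1
        omega
    · rcases h01 (t + 2) with h | h
      · exact h
      · exfalso
        have h1 := (hv _).1 h
        have e := val_add_nat u 2 (by unfold N; omega) t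
        rw [Nat.cast_ofNat] at e
        have := hs _ htl _ (ZMod.val_lt (t + 2)) h0 h1
        omega

lemma stable_SS (u j : ℕ) (hj : j < u) (Q : ℕ → Prop)
    (hQ : ∀ a b, Q a → Q b → a + 1 ≠ b ∧ a + 2 ≠ b) : Stable u (SS u j Q) := by
  intro a ha b hb h1 h2
  unfold N at *
  rcases h1 with h1 | h1 | h1 <;> rcases h2 with h2 | h2 | h2
  · omega
  · omega
  · omega
  · omega
  · have := hQ _ _ h1.2 h2.2
    omega
  · omega
  · omega
  · omega
  · omega

lemma stable_RR (u j : ℕ) (hj : j < u) (Q : ℕ → Prop) (hQ' : ∀ a, Q a → 1 ≤ a ∧ a ≤ 4)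
    (hQ : ∀ a b, Q a → Q b → a + 1 ≠ b ∧ a + 2 ≠ b) : Stable u (RR u j Q) := by
  intro a ha b hb h1 h2
  unfold N at *
  rcases h1 with h1 | h1 | h1 | h1 <;> rcases h2 with h2 | h2 | h2 | h2
  · omega
  · have := hQ' _ h2.2
    omega
  · omega
  · omega
  · have := hQ' _ h1.2
    omega
  · have := hQ _ _ h1.2 h2.2
    omega
  · have := hQ' _ h1.2
    omega
  · have := hQ' _ h1.2
    omega
  · omega
  · have := hQ' _ h2.2
    omega
  · omega
  · omega
  · omega
  · have := hQ' _ h2.2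
    omega
  · omega
  · omega

lemma stable_SX (u : ℕ) (hu : 1 ≤ u) : Stable u (SX u) := by
  intro a ha b hb h1 h2
  unfold N SX at *
  omega

end Pool.Agent.R564.OnOff
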