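import Mathlib

set_option autoImplicit false

open Set

namespace Pool.Agent.R564.OnOff

/-- The set `Z(n, α, β, γ, δ)` of all pairs `(y, z)` of the cyclic on/off problem; the time
periods are the elements of `ZMod n`. -/
def Z (n : ℕ) [NeZero n] (α β γ δ : ZMod n → ℕ) : Set ((ZMod n → ℝ) × (ZMod n → ℝ)) :=
  {p | (∀ t, (p.1 t = 0 ∨ p.1 t = 1) ∧ (p.2 t = 0 ∨ p.2 t = 1)) ∧
    (1 ≤ ∑ t, p.1 t ∧ ∑ t, p.1 t ≤ (n : ℝ) - 1) ∧
    (∀ t, p.2 t = 1 ↔ p.1 (t - 1) = 0 ∧ p.1 t = 1) ∧
    (∀ t, p.1 t - p.1 (t - 1) = 1 →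
      (∀ i : ℕ, i + 1 ≤ α t → p.1 (t + i) = 1) ∧
        ∃ i : ℕ, α t ≤ i ∧ i ≤ β t ∧ p.1 (t + i) = 0) ∧
    (∀ t, p.1 (t - 1) - p.1 t = 1 →
      (∀ i : ℕ, i + 1 ≤ γ t → p.1 (t + i) = 0) ∧
        ∃ i : ℕ, γ t ≤ i ∧ i ≤ δ t ∧ p.1 (t + i) = 1)}

/-- The conditions on the parameters: bounds and weak monotonicity. -/
structure Admissible (n : ℕ) (α β γ δ : ZMod n → ℕ) : Prop where
  on_bounds : ∀ t, 1 ≤ α t ∧ α t ≤ β t ∧ β t ≤ n - 1
  off_bounds : ∀ t, 1 ≤ γ t ∧ γ t ≤ δ t ∧ δ t ≤ n - 1
  mono : ∀ t, α t ≤ α (t + 1) + 1 ∧ β t ≤ β (t + 1) + 1 ∧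
    γ t ≤ γ (t + 1) + 1 ∧ δ t ≤ δ (t + 1) + 1

/-- `F` is a facet of the convex set `P`: a nonempty exposed face of dimension `dim P - 1`. -/
def IsFacet {E : Type} [AddCommGroup E] [Module ℝ E] [TopologicalSpace E] (P F : Set E) : Prop :=
  F.Nonempty ∧ IsExposed ℝ P F ∧
    Module.finrank ℝ (affineSpan ℝ F).direction + 1 =
      Module.finrank ℝ (affineSpan ℝ P).direction

section General

variable {n : ℕ} [NeZero n]

lemma mem_Z_of_stable (hn : 3 ≤ n) (y : ZMod n → ℝ) (h01 : ∀ t, y t = 0 ∨ y t = 1)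
    (hne : ∃ t, y t = 1) (hst : ∀ t, y t = 1 → y (t + 1) = 0 ∧ y (t + 2) = 0) :
    (y, y) ∈ Z n (fun _ => 1) (fun _ => 1) (fun _ => 2) (fun _ => n - 1) := by
  obtain ⟨t₀, ht₀⟩ := hne
  have hnn : ∀ t, 0 ≤ y t := fun t => by rcases h01 t with h | h <;> rw [h] <;> norm_num
  have hle : ∀ t, 0 ≤ 1 - y t := fun t => by rcases h01 t with h | h <;> rw [h] <;> norm_num
  refine ⟨fun t => ⟨h01 t, h01 t⟩, ⟨?_, ?_⟩, ?_, ?_, ?_⟩
  · have := Finset.single_le_sum (f := y) (fun t _ => hnn t) (Finset.mem_univ t₀)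
    rw [ht₀] at this
    exact this
  · have := Finset.single_le_sum (f := fun t => 1 - y t) (fun t _ => hle t)
      (Finset.mem_univ (t₀ + 1))
    simp only [(hst t₀ ht₀).1, Finset.sum_sub_distrib, Finset.sum_const, Finset.card_univ,
      ZMod.card, nsmul_eq_mul, mul_one, sub_zero] at this
    show ∑ t, y t ≤ (n : ℝ) - 1
    linarith
  · intro t
    show y t = 1 ↔ y (t - 1) = 0 ∧ y t = 1
    constructor
    · intro h
      refine ⟨?_, h⟩
      rcases h01 (t - 1) with h' | h'
      · exact h'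
      · have := (hst _ h').1
        rw [sub_add_cancel] at this
        rw [this] at h
        norm_num at h
    · exact fun h => h.2
  · intro t ht
    have h1 : y t = 1 := by
      have ht' : y t - y (t - 1) = 1 := ht
      rcases h01 t with h | h
      · have := hnn (t - 1)
        rw [h] at ht'
        linarith
      · exact h
    refine ⟨?_, 1, le_rfl, le_rfl, ?_⟩
    · intro i hi
      have hi' : i + 1 ≤ 1 := hi
      have : i = 0 := by omega
      subst this
      simpa using h1
    · simpa using (hst t h1).1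
  · intro t ht
    have ht' : y (t - 1) - y t = 1 := ht
    have h1 : y (t - 1) = 1 := by
      rcases h01 (t - 1) with h | h
      · have := hnn t
        rw [h] at ht'
        linarith
      · exact h
    have h2 : y t = 0 := by linarith
    refine ⟨?_, n - 1, by show 2 ≤ n - 1; omega, le_rfl, ?_⟩
    · intro i hi
      have hi' : i + 1 ≤ 2 := hi
      rcases Nat.lt_or_ge i 1 with h | h
      · have : i = 0 := by omega
        subst this
        simpa using h2
      · have : i = 1 := by omega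
        subst this
        have := (hst _ h1).2
        have e : t - 1 + 2 = t + ((1 : ℕ) : ZMod n) := by push_cast; ring
        rw [e] at this
        exact this
    · have e : t + ((n - 1 : ℕ) : ZMod n) = t - 1 := by
        rw [Nat.cast_sub (by omega)]
        simp [sub_eq_add_neg]
      show y (t + ((n - 1 : ℕ) : ZMod n)) = 1
      rw [e]
      exact h1

lemma of_mem_Z {p : (ZMod n → ℝ) × (ZMod n → ℝ)} {δ : ZMod n → ℕ}
    (hp : p ∈ Z n (fun _ => 1) (fun _ => 1) (fun _ => 2) δ) :
    p.2 = p.1 ∧ (∀ t, p.1 t = 0 ∨ p.1 t = 1) ∧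
      ∀ t, p.1 t = 1 → p.1 (t + 1) = 0 ∧ p.1 (t + 2) = 0 := by
  obtain ⟨h01, ⟨-, hs⟩, hz, hon, hoff⟩ := hp
  have key : ∀ t, p.1 t = 1 → p.1 (t - 1) = 0 := by
    intro t ht
    rcases (h01 (t - 1)).1 with h | h
    · exact h
    · exfalso
      have hall : ∀ i : ℕ, p.1 (t - i) = 1 ∧ p.1 (t - i - 1) = 1 := by
        intro i
        induction i with
        | zero => simpa using ⟨ht, h⟩
        | succ i ih =>
          have e : t - ((i + 1 : ℕ) : ZMod n) = t - i - 1 := by push_cast; ring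
          rw [e]
          refine ⟨ih.2, ?_⟩
          rcases (h01 (t - i - 1 - 1)).1 with h0 | h0
          · exfalso
            obtain ⟨-, j, hj1, hj2, hj3⟩ := hon (t - i - 1) (by rw [ih.2, h0]; norm_num)
            have : j = 1 := by
              have h1 : 1 ≤ j := hj1
              have h2 : j ≤ 1 := hj2
              omega
            subst this
            have e2 : t - i - 1 + ((1 : ℕ) : ZMod n) = t - i := by push_cast; ring
            rw [e2, ih.1] at hj3
            norm_num at hj3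
          · exact h0
      have hone : ∀ s, p.1 s = 1 := by
        intro s
        have := (hall (t - s).val).1
        rw [ZMod.natCast_zmod_val] at this
        simpa using this
      have : ∑ t, p.1 t = (n : ℝ) := by simp [hone, ZMod.card]
      linarith
  have hz' : p.2 = p.1 := by
    funext t
    rcases (h01 t).1 with h | h
    · rcases (h01 t).2 with h' | h'
      · rw [h, h']
      · have := ((hz t).1 h').2
        rw [h] at this
        norm_num at this
    · rw [h]
      exact (hz t).2 ⟨key t h, h⟩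
  refine ⟨hz', fun t => (h01 t).1, fun t ht => ?_⟩
  have h1 : p.1 (t + 1) = 0 := by
    rcases (h01 (t + 1)).1 with h | h
    · exact h
    · have := key _ h
      rw [add_sub_cancel_right, ht] at this
      norm_num at this
  refine ⟨h1, ?_⟩
  obtain ⟨h2, -⟩ := hoff (t + 1) (by rw [add_sub_cancel_right, ht, h1]; norm_num)
  have := h2 1 (by show 1 + 1 ≤ 2; norm_num)
  have e : t + 1 + ((1 : ℕ) : ZMod n) = t + 2 := by push_cast; ring
  rw [e] at this
  exact this

lemma sum_val (f : ℕ → ℝ) : ∑ v : ZMod n, f v.val = ∑ a ∈ Finset.range n, f a := by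
  cases n with
  | zero => exact absurd rfl (NeZero.ne 0)
  | succ k => exact Fin.sum_univ_eq_sum_range f (k + 1)

end General

end Pool.Agent.R564.OnOff
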