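import Pool.Agent.R564.OnOff.Face

set_option autoImplicit false

open Set Classical

namespace Pool.Agent.R564.OnOff

noncomputable def dg (u : ℕ) : (ZMod (N u) → ℝ) →ₗ[ℝ] E u :=
  LinearMap.prod LinearMap.id LinearMap.id

lemma dg_apply (u : ℕ) (y : ZMod (N u) → ℝ) : dg u y = (y, y) := rfl

lemma dg_inj (u : ℕ) : Function.Injective (dg u) := fun _ _ h => congrArg Prod.fst h

/-- unit vectors -/
noncomputable def e (u i a : ℕ) : ZMod (N u) → ℝ := vec u (fun i' a' => i' = i ∧ a' = a)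

lemma ind_add (P P' R R' : Prop) (h1 : (P' ∧ R) ↔ (P ∧ R')) (h2 : (P' ∨ R) ↔ (P ∨ R')) :
    (if P' then (1 : ℝ) else 0) + (if R then 1 else 0) =
      (if P then 1 else 0) + (if R' then 1 else 0) := by
  by_cases a : P <;> by_cases b : P' <;> by_cases c : R <;> by_cases d : R' <;>
    simp_all

lemma ind_one (P P' R : Prop) (h1 : P' ↔ (P ∨ R)) (h2 : ¬ (P ∧ R)) :
    (if P' then (1 : ℝ) else 0) = (if P then 1 else 0) + (if R then 1 else 0) := by
  by_cases a : P <;> by_cases b : P' <;> by_cases c : R <;> simp_all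

lemma vec_swap (u : ℕ) (p p' : ℕ → ℕ → Prop) (i a i' a' : ℕ)
    (h1 : ∀ k b, (p' k b ∧ (k = i ∧ b = a)) ↔ (p k b ∧ (k = i' ∧ b = a')))
    (h2 : ∀ k b, (p' k b ∨ (k = i ∧ b = a)) ↔ (p k b ∨ (k = i' ∧ b = a'))) :
    vec u p' + e u i a = vec u p + e u i' a' := by
  funext v
  exact ind_add _ _ _ _ (h1 _ _) (h2 _ _)

lemma vec_one (u : ℕ) (p p' : ℕ → ℕ → Prop) (i a : ℕ)
    (h1 : ∀ k b, p' k b ↔ (p k b ∨ (k = i ∧ b = a)))
    (h2 : ∀ k b, ¬ (p k b ∧ (k = i ∧ b = a))) :
    vec u p' = vec u p + e u i a := by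
  funext v
  exact ind_one _ _ _ (h1 _ _) (h2 _ _)

lemma good_SS (u : ℕ) (hu : 1 ≤ u) (w : ℕ → Bool) (j : ℕ) (hj : j < u) (Q : ℕ → Prop)
    (hQ : ∀ a b, Q a → Q b → a + 1 ≠ b ∧ a + 2 ≠ b) (hne : ∃ a, a < 7 ∧ Q a)
    (hc : cnt (w j) Q = 2) : Good u w (SS u j Q) := by
  refine ⟨vec_SS_mem u hu j hj Q hQ hne, ?_⟩
  rw [lw_SS u j hj, hc]
  ring

lemma good_RR (u : ℕ) (hu : 1 ≤ u) (w : ℕ → Bool) (j : ℕ) (hj : j < u) (Q : ℕ → Prop)
    (hQ' : ∀ a, Q a → 1 ≤ a ∧ a ≤ 4)
    (hQ : ∀ a b, Q a → Q b → a + 1 ≠ b ∧ a + 2 ≠ b)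
    (hc : cnt (w j) Q = 1) : Good u w (RR u j Q) := by
  refine ⟨vec_RR_mem u hu j hj Q hQ' hQ, ?_⟩
  rw [lw_RR u j hj, hc]
  ring

section Dual

variable {u : ℕ} (hu : 1 ≤ u) (w : ℕ → Bool) (φ : Module.Dual ℝ (E u))
  (hφ : ∀ p p', Good u w p → Good u w p' → φ (dg u (vec u p)) = φ (dg u (vec u p')))

include hφ in
lemma swap {p p' : ℕ → ℕ → Prop} (hp : Good u w p) (hp' : Good u w p') {i a i' a' : ℕ}
    (h : vec u p' + e u i a = vec u p + e u i' a') :
    φ (dg u (e u i a)) = φ (dg u (e u i' a')) := by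
  have h1 := congrArg (fun x => φ (dg u x)) h
  simp only [map_add] at h1
  have h2 := hφ p p' hp hp'
  linarith

include hφ in
lemma zero {p p' : ℕ → ℕ → Prop} (hp : Good u w p) (hp' : Good u w p') {i a : ℕ}
    (h : vec u p' = vec u p + e u i a) :
    φ (dg u (e u i a)) = 0 := by
  have h1 := congrArg (fun x => φ (dg u x)) h
  simp only [map_add] at h1
  have h2 := hφ p p' hp hp'
  linarith

end Dual

lemma g03 (u : ℕ) (hu : 1 ≤ u) (w : ℕ → Bool) (j : ℕ) (hj : j < u) :
    Good u w (SS u j fun a => a = 0 ∨ a = 3) :=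
  good_SS u hu w j hj _ (by omega) ⟨0, by omega⟩ (cnt03 _ _ fun _ => Iff.rfl)

lemma g25 (u : ℕ) (hu : 1 ≤ u) (w : ℕ → Bool) (j : ℕ) (hj : j < u) :
    Good u w (SS u j fun a => a = 2 ∨ a = 5) :=
  good_SS u hu w j hj _ (by omega) ⟨2, by omega⟩ (cnt25 _ _ fun _ => Iff.rfl)

lemma g05 (u : ℕ) (hu : 1 ≤ u) (w : ℕ → Bool) (j : ℕ) (hj : j < u) :
    Good u w (SS u j fun a => a = 0 ∨ a = 5) := by
  refine good_SS u hu w j hj _ (by omega) ⟨0, by omega⟩ ?_
  cases w j <;>
    (simp only [cnt, Finset.sum_range_succ, Finset.sum_range_zero]; simp [tb]; norm_num)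

lemma g036 (u : ℕ) (hu : 1 ≤ u) (w : ℕ → Bool) (j : ℕ) (hj : j < u) :
    Good u w (SS u j fun a => a = 0 ∨ a = 3 ∨ a = 6) := by
  refine good_SS u hu w j hj _ (by omega) ⟨0, by omega⟩ ?_
  cases w j <;>
    (simp only [cnt, Finset.sum_range_succ, Finset.sum_range_zero]; simp [tb]; norm_num)

lemma r2 (u : ℕ) (hu : 1 ≤ u) (w : ℕ → Bool) (j : ℕ) (hj : j < u) :
    Good u w (RR u j fun a => a = 2) := by
  refine good_RR u hu w j hj _ (by omega) (by omega) ?_
  cases w j <;>
    (simp only [cnt, Finset.sum_range_succ, Finset.sum_range_zero]; simp [tb])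

lemma r3 (u : ℕ) (hu : 1 ≤ u) (w : ℕ → Bool) (j : ℕ) (hj : j < u) :
    Good u w (RR u j fun a => a = 3) := by
  refine good_RR u hu w j hj _ (by omega) (by omega) ?_
  cases w j <;>
    (simp only [cnt, Finset.sum_range_succ, Finset.sum_range_zero]; simp [tb])

lemma r4 (u : ℕ) (hu : 1 ≤ u) (w : ℕ → Bool) (j : ℕ) (hj : j < u) (hw : w j = false) :
    Good u w (RR u j fun a => a = 4) := by
  refine good_RR u hu w j hj _ (by omega) (by omega) ?_
  rw [hw]
  (simp only [cnt, Finset.sum_range_succ, Finset.sum_range_zero]; simp [tb])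

lemma r1 (u : ℕ) (hu : 1 ≤ u) (w : ℕ → Bool) (j : ℕ) (hj : j < u) (hw : w j = true) :
    Good u w (RR u j fun a => a = 1) := by
  refine good_RR u hu w j hj _ (by omega) (by omega) ?_
  rw [hw]
  (simp only [cnt, Finset.sum_range_succ, Finset.sum_range_zero]; simp [tb])

lemma r14 (u : ℕ) (hu : 1 ≤ u) (w : ℕ → Bool) (j : ℕ) (hj : j < u) :
    Good u w (RR u j fun a => a = 1 ∨ a = 4) := by
  refine good_RR u hu w j hj _ (by omega) (by omega) ?_
  cases w j <;>
    (simp only [cnt, Finset.sum_range_succ, Finset.sum_range_zero]; simp [tb])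

section Dual2

variable {u : ℕ} (hu : 1 ≤ u) (w : ℕ → Bool) (φ : Module.Dual ℝ (E u))
  (hφ : ∀ p p', Good u w p → Good u w p' → φ (dg u (vec u p)) = φ (dg u (vec u p')))

include hu hφ

lemma c6 (j : ℕ) (hj : j < u) : φ (dg u (e u j 6)) = 0 :=
  zero w φ hφ (g03 u hu w j hj) (g036 u hu w j hj)
    (vec_one u _ _ _ _ (by intro k b; unfold SS; omega) (by intro k b; unfold SS; omega))

lemma c35 (j : ℕ) (hj : j < u) : φ (dg u (e u j 3)) = φ (dg u (e u j 5)) :=
  swap w φ hφ (g03 u hu w j hj) (g05 u hu w j hj)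
    (vec_swap u _ _ _ _ _ _ (by intro k b; unfold SS; omega) (by intro k b; unfold SS; omega))

lemma c20 (j : ℕ) (hj : j < u) : φ (dg u (e u j 2)) = φ (dg u (e u j 0)) :=
  swap w φ hφ (g25 u hu w j hj) (g05 u hu w j hj)
    (vec_swap u _ _ _ _ _ _ (by intro k b; unfold SS; omega) (by intro k b; unfold SS; omega))

lemma c23 (j : ℕ) (hj : j < u) : φ (dg u (e u j 2)) = φ (dg u (e u j 3)) :=
  swap w φ hφ (r2 u hu w j hj) (r3 u hu w j hj)
    (vec_swap u _ _ _ _ _ _ (by intro k b; unfold RR; omega) (by intro k b; unfold RR; omega))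

lemma c34 (j : ℕ) (hj : j < u) (hw : w j = false) :
    φ (dg u (e u j 3)) = φ (dg u (e u j 4)) :=
  swap w φ hφ (r3 u hu w j hj) (r4 u hu w j hj hw)
    (vec_swap u _ _ _ _ _ _ (by intro k b; unfold RR; omega) (by intro k b; unfold RR; omega))

lemma c1z (j : ℕ) (hj : j < u) (hw : w j = false) : φ (dg u (e u j 1)) = 0 :=
  zero w φ hφ (r4 u hu w j hj hw) (r14 u hu w j hj)
    (vec_one u _ _ _ _ (by intro k b; unfold RR; omega) (by intro k b; unfold RR; omega))

lemma c21 (j : ℕ) (hj : j < u) (hw : w j = true) :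
    φ (dg u (e u j 2)) = φ (dg u (e u j 1)) :=
  swap w φ hφ (r2 u hu w j hj) (r1 u hu w j hj hw)
    (vec_swap u _ _ _ _ _ _ (by intro k b; unfold RR; omega) (by intro k b; unfold RR; omega))

lemma c4z (j : ℕ) (hj : j < u) (hw : w j = true) : φ (dg u (e u j 4)) = 0 :=
  zero w φ hφ (r1 u hu w j hj hw) (r14 u hu w j hj)
    (vec_one u _ _ _ _ (by intro k b; unfold RR; omega) (by intro k b; unfold RR; omega))

lemma cnext (j : ℕ) (hj : j + 1 < u) :
    φ (dg u (e u (j + 1) 0)) = φ (dg u (e u j 5)) :=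
  swap w φ hφ (r2 u hu w j (by omega)) (r3 u hu w (j + 1) hj)
    (vec_swap u _ _ _ _ _ _ (by intro k b; unfold RR; omega) (by intro k b; unfold RR; omega))

lemma cX : φ (dg u (e u 0 0)) = φ (dg u (e u u 0)) :=
  swap w φ hφ (g03 u hu w (u - 1) (by omega)) (r3 u hu w 0 (by omega))
    (vec_swap u _ _ _ _ _ _ (by intro k b; unfold RR SS; omega)
      (by intro k b; unfold RR SS; omega))

lemma cXz : φ (dg u (e u u 1)) = 0 :=
  zero w φ hφ (g25 u hu w 0 (by omega)) (good_SX u hu w)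
    (vec_one u _ _ _ _ (by intro k b; unfold SX SS; omega) (by intro k b; unfold SS; omega))

lemma c0 (j : ℕ) (hj : j < u) : φ (dg u (e u j 0)) = φ (dg u (e u 0 0)) := by
  induction j with
  | zero => rfl
  | succ j ih =>
    rw [cnext hu w φ hφ j hj, ← c35 hu w φ hφ j (by omega), ← c23 hu w φ hφ j (by omega),
      c20 hu w φ hφ j (by omega)]
    exact ih (by omega)

lemma call (j : ℕ) (hj : j < u) (a : ℕ) (ha : a < 7) :
    φ (dg u (e u j a)) = if tb (w j) a then φ (dg u (e u 0 0)) else 0 := by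
  have e0 := c0 hu w φ hφ j hj
  have e2 := c20 hu w φ hφ j hj
  have e3 := c23 hu w φ hφ j hj
  have e5 := c35 hu w φ hφ j hj
  have e6 := c6 hu w φ hφ j hj
  have hcase : a = 0 ∨ a = 1 ∨ a = 2 ∨ a = 3 ∨ a = 4 ∨ a = 5 ∨ a = 6 := by omega
  cases hw : w j with
  | false =>
    have e4 := c34 hu w φ hφ j hj hw
    have e1 := c1z hu w φ hφ j hj hw
    rcases hcase with rfl | rfl | rfl | rfl | rfl | rfl | rfl <;> simp [tb] <;> linarith
  | true =>
    have e1 := c21 hu w φ hφ j hj hw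
    have e4 := c4z hu w φ hφ j hj hw
    rcases hcase with rfl | rfl | rfl | rfl | rfl | rfl | rfl <;> simp [tb] <;> linarith

lemma phi_eq (y : ZMod (N u) → ℝ) :
    φ (dg u y) = φ (dg u (e u 0 0)) * lw u w y := by
  have h := LinearMap.pi_apply_eq_sum_univ (φ.comp (dg u)) y
  rw [LinearMap.comp_apply] at h
  rw [h, lw_apply, Finset.mul_sum]
  refine Finset.sum_congr rfl fun v _ => ?_
  have hv : (fun j => if v = j then (1 : ℝ) else 0) = e u (v.val / 7) (v.val % 7) := by
    funext j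
    unfold e vec
    have : v = j ↔ (j.val / 7 = v.val / 7 ∧ j.val % 7 = v.val % 7) := by
      constructor
      · rintro rfl
        exact ⟨rfl, rfl⟩
      · intro h
        apply ZMod.val_injective
        omega
    by_cases hh : v = j
    · rw [if_pos hh, if_pos (this.1 hh)]
    · rw [if_neg hh, if_neg fun h' => hh (this.2 h')]
  rw [hv, LinearMap.comp_apply, smul_eq_mul]
  have hlt : v.val < 7 * u + 2 := ZMod.val_lt v
  rcases Nat.lt_or_ge (v.val / 7) u with hi | hi
  · rw [call hu w φ hφ _ hi _ (Nat.mod_lt _ (by norm_num))]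
    have : tp u w (v.val / 7) (v.val % 7) ↔ tb (w (v.val / 7)) (v.val % 7) := by
      unfold tp
      constructor
      · rintro (h | h)
        · exact h.2
        · omega
      · exact fun h => Or.inl ⟨hi, h⟩
    simp only [this]
    split_ifs <;> ring
  · have hi' : v.val / 7 = u := by omega
    rw [hi']
    have ha : v.val % 7 = 0 ∨ v.val % 7 = 1 := by omega
    rcases ha with ha | ha
    · rw [ha, ← cX hu w φ hφ]
      have : tp u w u 0 := Or.inr ⟨rfl, rfl⟩
      rw [if_pos this]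
      ring
    · rw [ha, cXz hu w φ hφ]
      have : ¬ tp u w u 1 := by
        rintro (h | h) <;> omega
      rw [if_neg this]
      ring

end Dual2

/-! ### dimensions -/

lemma P_sub_range (u : ℕ) : PP u ⊆ (LinearMap.range (dg u) : Set (E u)) := by
  refine convexHull_min ?_ (Submodule.convex _)
  intro p hp
  refine ⟨p.1, ?_⟩
  rw [dg_apply]
  exact Prod.ext rfl (of_mem_Z hp).1.symm

noncomputable def K (u : ℕ) (w : ℕ → Bool) : Submodule ℝ (E u) :=
  (LinearMap.ker (lw u w)).map (dg u)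

lemma finrank_K (u : ℕ) (hu : 1 ≤ u) (w : ℕ → Bool) :
    Module.finrank ℝ (K u w) + 1 = N u := by
  have h1 : Module.finrank ℝ (K u w) = Module.finrank ℝ (LinearMap.ker (lw u w)) :=
    (LinearEquiv.finrank_eq (Submodule.equivMapOfInjective (dg u) (dg_inj u) _)).symm
  have h2 : (lw u w : Module.Dual ℝ (ZMod (N u) → ℝ)) ≠ 0 := by
    intro h
    have := lw_SX u w
    rw [h] at this
    have hu' : (1 : ℝ) ≤ u := by exact_mod_cast hu
    rw [LinearMap.zero_apply] at this
    linarith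
  have h3 := Module.Dual.finrank_ker_add_one_of_ne_zero h2
  rw [h1, h3, Module.finrank_fintype_fun_eq_card, ZMod.card]

lemma dir_face (u : ℕ) (hu : 1 ≤ u) (w : ℕ → Bool) :
    (affineSpan ℝ (face u w)).direction = K u w := by
  apply le_antisymm
  · rw [direction_affineSpan, vectorSpan_def, Submodule.span_le]
    rintro z ⟨x, hx, y, hy, rfl⟩
    obtain ⟨hx1, hx2⟩ := (mem_face_iff u hu w x).1 hx
    obtain ⟨hy1, hy2⟩ := (mem_face_iff u hu w y).1 hy
    obtain ⟨a, rfl⟩ := P_sub_range u hx1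
    obtain ⟨b, rfl⟩ := P_sub_range u hy1
    refine ⟨a - b, ?_, map_sub _ _ _⟩
    rw [lE_apply, dg_apply] at hx2 hy2
    show lw u w (a - b) = 0
    rw [map_sub]
    show lw u w a - lw u w b = 0
    have hx3 : lw u w a = 2 * (u : ℝ) := hx2
    have hy3 : lw u w b = 2 * (u : ℝ) := hy2
    rw [hx3, hy3, sub_self]
  · rintro _ ⟨y, hy, rfl⟩
    rw [← Subspace.forall_mem_dualAnnihilator_apply_eq_zero_iff]
    intro φ hφ
    rw [Submodule.mem_dualAnnihilator] at hφ
    have hφ' : ∀ p p', Good u w p → Good u w p' →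
        φ (dg u (vec u p)) = φ (dg u (vec u p')) := by
      intro p p' hp hp'
      have h1 := AffineSubspace.vsub_mem_direction
        (subset_affineSpan ℝ _ (good_mem_face u hu w p hp))
        (subset_affineSpan ℝ _ (good_mem_face u hu w p' hp'))
      have h2 := hφ _ h1
      rw [vsub_eq_sub, map_sub, sub_eq_zero] at h2
      exact h2
    rw [phi_eq hu w φ hφ' y]
    have : lw u w y = 0 := hy
    rw [this, mul_zero]

/-- a point off the hyperplane -/
def X1 (u : ℕ) (i a : ℕ) : Prop := i = u ∧ a = 1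

lemma X1_mem (u : ℕ) (hu : 1 ≤ u) : ((vec u (X1 u), vec u (X1 u)) : E u) ∈ ZZ u := by
  refine vec_mem_Z u hu _ ?_ ⟨u, 1, by unfold N; omega, by norm_num, rfl, rfl⟩
  intro a ha b hb h1 h2
  unfold N X1 at *
  omega

lemma lw_X1 (u : ℕ) (w : ℕ → Bool) : lw u w (vec u (X1 u)) = 0 := by
  rw [lw_apply]
  refine Finset.sum_eq_zero fun v _ => ?_
  unfold vec X1 tp
  split_ifs with h1 h2
  · omega
  · rfl
  · rfl

lemma finrank_dir_P (u : ℕ) (hu : 1 ≤ u) :
    Module.finrank ℝ (affineSpan ℝ (PP u)).direction = N u := by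
  set w : ℕ → Bool := fun _ => false
  have h1 : K u w ≤ (affineSpan ℝ (PP u)).direction := by
    rw [← dir_face u hu w]
    exact AffineSubspace.direction_le (affineSpan_mono ℝ fun x hx => hx.1)
  have h2 : K u w < (affineSpan ℝ (PP u)).direction := by
    refine lt_of_le_of_ne h1 fun h => ?_
    have h3 := AffineSubspace.vsub_mem_direction
      (subset_affineSpan ℝ _ (subset_convexHull ℝ _ (good_SX u hu w).1))
      (subset_affineSpan ℝ _ (subset_convexHull ℝ _ (X1_mem u hu)))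
    rw [← h] at h3
    obtain ⟨y, hy, hy'⟩ := h3
    have hy0 : lw u w y = 0 := hy
    have e1 : y = vec u (SX u) - vec u (X1 u) := by
      have := congrArg Prod.fst hy'
      exact this
    rw [e1, map_sub, lw_SX, lw_X1] at hy0
    have hu' : (1 : ℝ) ≤ u := by exact_mod_cast hu
    linarith
  have h3 : Module.finrank ℝ (K u w) <
      Module.finrank ℝ (affineSpan ℝ (PP u)).direction :=
    Submodule.finrank_lt_finrank_of_lt h2
  have h4 : (affineSpan ℝ (PP u)).direction ≤ LinearMap.range (dg u) := by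
    rw [direction_affineSpan, vectorSpan_def, Submodule.span_le]
    rintro z ⟨x, hx, y, hy, rfl⟩
    exact (LinearMap.range (dg u)).sub_mem (P_sub_range u hx) (P_sub_range u hy)
  have h5 : Module.finrank ℝ (affineSpan ℝ (PP u)).direction ≤ N u := by
    refine (Submodule.finrank_mono h4).trans ?_
    rw [LinearMap.finrank_range_of_inj (dg_inj u), Module.finrank_fintype_fun_eq_card,
      ZMod.card]
  have h6 := finrank_K u hu w
  exact le_antisymm h5 (h6.symm.le.trans h3)

lemma face_isFacet (u : ℕ) (hu : 1 ≤ u) (w : ℕ → Bool) : IsFacet (PP u) (face u w) := by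
  refine ⟨⟨_, good_mem_face u hu w _ (good_SX u hu w)⟩, fun _ => ⟨lE u w, rfl⟩, ?_⟩
  rw [dir_face u hu w, finrank_dir_P u hu, finrank_K u hu w]

/-! ### many facets -/

def ext (u : ℕ) (f : Fin u → Bool) : ℕ → Bool := fun i => if h : i < u then f ⟨i, h⟩ else false

lemma face_ne (u : ℕ) (hu : 1 ≤ u) (w w' : ℕ → Bool) (j : ℕ) (hj : j < u)
    (h : w j = false) (h' : w' j = true) : face u w ≠ face u w' := by
  intro he
  have h1 := good_mem_face u hu w _ (r4 u hu w j hj h)
  rw [he] at h1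
  have h2 := ((mem_face_iff u hu w' _).1 h1).2
  rw [lE_apply] at h2
  have h3 : lw u w' (vec u (RR u j fun a => a = 4)) = 2 * (u : ℝ) := h2
  rw [lw_RR u j hj, h'] at h3
  have h4 : cnt true (fun a => a = 4) = 0 := by
    simp only [cnt, Finset.sum_range_succ, Finset.sum_range_zero]
    simp [tb]
  rw [h4] at h3
  linarith

lemma many (u : ℕ) (hu : 1 ≤ u) :
    ((2 ^ u : ℕ) : ℕ∞) ≤ {F | IsFacet (PP u) F}.encard := by
  have hinj : Function.Injective fun f : Fin u → Bool => face u (ext u f) := by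
    intro f g hfg
    by_contra hne
    obtain ⟨j, hj⟩ := Function.ne_iff.1 hne
    have ef : ext u f j = f j := by simp [ext]
    have eg : ext u g j = g j := by simp [ext]
    cases hf : f j <;> cases hg : g j
    · exact hj (by rw [hf, hg])
    · exact face_ne u hu _ _ j j.2 (by rw [ef, hf]) (by rw [eg, hg]) hfg
    · exact face_ne u hu _ _ j j.2 (by rw [eg, hg]) (by rw [ef, hf]) hfg.symm
    · exact hj (by rw [hf, hg])
  have h1 : (Set.range fun f : Fin u → Bool => face u (ext u f)).encard =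
      ((2 ^ u : ℕ) : ℕ∞) := by
    rw [← Set.image_univ, hinj.encard_image, Set.encard_univ]
    simp
  rw [← h1]
  apply Set.encard_le_encard
  rintro _ ⟨f, rfl⟩
  exact face_isFacet u hu _

end Pool.Agent.R564.OnOff
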