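import Pool.Agent.R564.OnOff.Core

set_option autoImplicit false

open Set Classical

namespace Pool.Agent.R564.OnOff

abbrev E (u : ℕ) : Type := (ZMod (N u) → ℝ) × (ZMod (N u) → ℝ)

/-- the set `Z` with `α = β = 1`, `γ = 2`, `δ = n - 1` -/
abbrev ZZ (u : ℕ) : Set (E u) :=
  Z (N u) (fun _ => 1) (fun _ => 1) (fun _ => 2) (fun _ => N u - 1)

/-- its convex hull -/
abbrev PP (u : ℕ) : Set (E u) := convexHull ℝ (ZZ u)

/-- validity of the inequality -/
lemma valid (u : ℕ) (hu : 1 ≤ u) (w : ℕ → Bool) (p : E u) (hp : p ∈ ZZ u) :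
    lw u w p.1 ≤ 2 * (u : ℝ) := by
  obtain ⟨-, h01, hst⟩ := of_mem_Z hp
  set y : ℕ → ℝ := fun a => p.1 (a : ZMod (N u)) with hy
  have hnn : ∀ a, 0 ≤ y a := fun a => by
    rcases h01 (a : ZMod (N u)) with h | h <;> simp only [hy, h] <;> norm_num
  have h01' : ∀ a, y a = 0 ∨ y a = 1 := fun a => h01 _
  have hc : ∀ a, y a + y (a + 1) + y (a + 2) ≤ 1 := by
    intro a
    have e1 : y (a + 1) = p.1 ((a : ZMod (N u)) + 1) := by simp [hy]
    have e2 : y (a + 2) = p.1 ((a : ZMod (N u)) + 2) := by simp [hy]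
    rcases h01' a with h | h
    · rcases h01' (a + 1) with h' | h'
      · rcases h01' (a + 2) with h'' | h'' <;> rw [h, h', h''] <;> norm_num
      · have := (hst ((a : ZMod (N u)) + 1) (by rw [← e1]; exact h')).1
        rw [add_assoc, one_add_one_eq_two, ← e2] at this
        rw [h, h', this]
        norm_num
    · have := hst (a : ZMod (N u)) h
      rw [e1, e2, this.1, this.2, h]
      norm_num
  have hform : lw u w p.1 = ∑ i ∈ Finset.range u,
      (∑ j ∈ Finset.range 7, if tb (w i) j then y (7 * i + j) else 0) + y (7 * u) := by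
    rw [lw_apply]
    have hv : ∀ v : ZMod (N u), p.1 v = y (7 * (v.val / 7) + v.val % 7) := by
      intro v
      have : 7 * (v.val / 7) + v.val % 7 = v.val := Nat.div_add_mod _ _
      rw [this]
      simp [hy]
    have e : ∀ v : ZMod (N u), (if tp u w (v.val / 7) (v.val % 7) then p.1 v else 0) =
        (fun i j => if tp u w i j then y (7 * i + j) else 0) (v.val / 7) (v.val % 7) := by
      intro v
      rw [hv v]
    rw [Finset.sum_congr rfl fun v _ => e v]
    refine (sum_blocks (fun i j => if tp u w i j then y (7 * i + j) else 0) u).trans ?_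
    have h1 : tp u w u 0 := Or.inr ⟨rfl, rfl⟩
    have h2 : ¬ tp u w u 1 := by
      rintro (h | h)
      · exact lt_irrefl _ h.1
      · exact one_ne_zero h.2
    rw [if_pos h1, if_neg h2, add_zero, add_zero]
    congr 1
    refine Finset.sum_congr rfl fun i hi => Finset.sum_congr rfl fun j _ => ?_
    have hi' := Finset.mem_range.1 hi
    have : tp u w i j ↔ tb (w i) j := by
      unfold tp
      constructor
      · rintro (h | h)
        · exact h.2
        · omega
      · exact fun h => Or.inl ⟨hi', h⟩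
    simp only [this]
  -- bound of a block
  have hb1 : ∀ i, (∑ j ∈ Finset.range 7, if tb (w i) j then y (7 * i + j) else 0) ≤ 2 := by
    intro i
    have c1 := hc (7 * i)
    have c2 := hc (7 * i + 3)
    have n1 := hnn (7 * i + 1)
    have n2 := hnn (7 * i + 4)
    cases w i <;>
      (simp only [Finset.sum_range_succ, Finset.sum_range_zero, tb]; norm_num; norm_num at c1 c2; linarith)
  have hb2 : ∀ i, (∑ j ∈ Finset.range 7, if tb (w i) j then y (7 * i + j) else 0) +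
      y (7 * (i + 1)) ≤ y (7 * i) + 2 := by
    intro i
    have c1 := hc (7 * i + 2)
    have c2 := hc (7 * i + 5)
    have c3 := hc (7 * i + 1)
    have n1 := hnn (7 * i + 6)
    have e : 7 * (i + 1) = 7 * i + 7 := by ring
    rw [e]
    cases w i <;>
      (simp only [Finset.sum_range_succ, Finset.sum_range_zero, tb]; norm_num; norm_num at c1 c2 c3; linarith)
  rw [hform]
  have hwrap : y (7 * u) + y 0 ≤ 1 := by
    have c := hc (7 * u)
    have e : y (7 * u + 2) = y 0 := by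
      have : ((7 * u + 2 : ℕ) : ZMod (7 * u + 2)) = ((0 : ℕ) : ZMod (7 * u + 2)) := by
        rw [Nat.cast_zero]
        exact ZMod.natCast_self _
      exact congrArg p.1 this
    have := hnn (7 * u + 1)
    linarith
  have hs1 : ∑ i ∈ Finset.range u, (∑ j ∈ Finset.range 7,
      if tb (w i) j then y (7 * i + j) else 0) ≤ 2 * (u : ℝ) := by
    calc _ ≤ ∑ i ∈ Finset.range u, (2 : ℝ) := Finset.sum_le_sum fun i _ => hb1 i
      _ = 2 * (u : ℝ) := by simp [mul_comm]
  have hs2 : ∀ k : ℕ, ∑ i ∈ Finset.range k, (∑ j ∈ Finset.range 7,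
      if tb (w i) j then y (7 * i + j) else 0) + y (7 * k) ≤ y 0 + 2 * (k : ℝ) := by
    intro k
    induction k with
    | zero => simp
    | succ k ih =>
      rw [Finset.sum_range_succ]
      have := hb2 k
      push_cast
      linarith
  rcases h01' 0 with h | h
  · have := hs2 u
    rw [h] at this
    linarith
  · rw [h] at hwrap
    have := hnn (7 * u)
    linarith

/-- the functional on the whole space -/
noncomputable def lE (u : ℕ) (w : ℕ → Bool) : StrongDual ℝ (E u) :=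
  LinearMap.toContinuousLinearMap ((lw u w).comp (LinearMap.fst ℝ _ _))

lemma lE_apply (u : ℕ) (w : ℕ → Bool) (p : E u) : lE u w p = lw u w p.1 := rfl

def face (u : ℕ) (w : ℕ → Bool) : Set (E u) :=
  {x | x ∈ PP u ∧ ∀ y ∈ PP u, lE u w y ≤ lE u w x}

lemma valid_P (u : ℕ) (hu : 1 ≤ u) (w : ℕ → Bool) (p : E u) (hp : p ∈ PP u) :
    lE u w p ≤ 2 * (u : ℝ) := by
  have : PP u ⊆ {x | lE u w x ≤ 2 * (u : ℝ)} := by
    refine convexHull_min (fun p hp => valid u hu w p hp) ?_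
    exact convex_halfSpace_le (lE u w).toLinearMap.isLinear _
  exact this hp

lemma vec_SS_mem (u : ℕ) (hu : 1 ≤ u) (j : ℕ) (hj : j < u) (Q : ℕ → Prop)
    (hQ : ∀ a b, Q a → Q b → a + 1 ≠ b ∧ a + 2 ≠ b) (hne : ∃ a, a < 7 ∧ Q a) :
    ((vec u (SS u j Q), vec u (SS u j Q)) : E u) ∈ ZZ u := by
  obtain ⟨a, ha, hqa⟩ := hne
  exact vec_mem_Z u hu _ (stable_SS u j hj Q hQ)
    ⟨j, a, by unfold N; omega, ha, Or.inr (Or.inl ⟨rfl, hqa⟩)⟩

lemma vec_RR_mem (u : ℕ) (hu : 1 ≤ u) (j : ℕ) (hj : j < u) (Q : ℕ → Prop)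
    (hQ' : ∀ a, Q a → 1 ≤ a ∧ a ≤ 4)
    (hQ : ∀ a b, Q a → Q b → a + 1 ≠ b ∧ a + 2 ≠ b) :
    ((vec u (RR u j Q), vec u (RR u j Q)) : E u) ∈ ZZ u :=
  vec_mem_Z u hu _ (stable_RR u j hj Q hQ' hQ)
    ⟨u, 0, by unfold N; omega, by norm_num, Or.inr (Or.inr (Or.inr ⟨rfl, rfl⟩))⟩

lemma vec_SX_mem (u : ℕ) (hu : 1 ≤ u) :
    ((vec u (SX u), vec u (SX u)) : E u) ∈ ZZ u :=
  vec_mem_Z u hu _ (stable_SX u hu)
    ⟨u, 1, by unfold N; omega, by norm_num, Or.inr ⟨rfl, rfl⟩⟩

/-- a vector is good if it is a point of the face -/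
def Good (u : ℕ) (w : ℕ → Bool) (p : ℕ → ℕ → Prop) : Prop :=
  ((vec u p, vec u p) : E u) ∈ ZZ u ∧ lw u w (vec u p) = 2 * (u : ℝ)

lemma good_SX (u : ℕ) (hu : 1 ≤ u) (w : ℕ → Bool) : Good u w (SX u) :=
  ⟨vec_SX_mem u hu, lw_SX u w⟩

lemma mem_face_iff (u : ℕ) (hu : 1 ≤ u) (w : ℕ → Bool) (x : E u) :
    x ∈ face u w ↔ x ∈ PP u ∧ lE u w x = 2 * (u : ℝ) := by
  constructor
  · rintro ⟨h1, h2⟩
    refine ⟨h1, le_antisymm (valid_P u hu w x h1) ?_⟩
    have := h2 _ (subset_convexHull ℝ _ (good_SX u hu w).1)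
    rw [lE_apply, lE_apply] at this
    rw [lE_apply, ← (good_SX u hu w).2]
    exact this
  · rintro ⟨h1, h2⟩
    exact ⟨h1, fun y hy => by rw [h2]; exact valid_P u hu w y hy⟩

lemma good_mem_face (u : ℕ) (hu : 1 ≤ u) (w : ℕ → Bool) (p : ℕ → ℕ → Prop) (hp : Good u w p) :
    ((vec u p, vec u p) : E u) ∈ face u w :=
  (mem_face_iff u hu w _).2 ⟨subset_convexHull ℝ _ hp.1, by rw [lE_apply]; exact hp.2⟩

end Pool.Agent.R564.OnOff
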